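import Pool.Agent.N869.GK.D.Stm
import Pool.Agent.W215.HB.Bilo
import Pool.Agent.W864.HB.Bilt

/-!
# Project GK, part QV
-/

set_option autoImplicit false

open scoped Classical

namespace Pool.Agent.N954.GK

open Pool.Agent.W313.BMX Pool.Agent.N869.GK.D
open Pool.Agent.TH841.SH (LocC)

/-- the symbol over a field -/
noncomputable def QVh (K : Type) [Field K] (m n : ℤ) : ZMod 2 :=
  if Splits (m : K) (n : K) then 0 else 1

lemma QV_gen (K : Type) [Field K] [CharZero K]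
    (B : ∀ a b c : ℤ, a ≠ 0 → b ≠ 0 → c ≠ 0 →
      (Splits (a : K) ((b * c : ℤ) : K) ↔ (Splits (a : K) (b : K) ↔ Splits (a : K) (c : K))))
    (e1 e2 e3 m n : ℤ) (he : e1 ≠ e2) (hm : m ≠ 0) (hn : n ≠ 0) (h : LocC K e1 e2 e3 m n) :
    QVh K m n + QVh K m (e1 - e2) + QVh K n (e2 - e1) = 0 := by
  have hbil : ∀ a b c : ℤ, a ≠ 0 → b ≠ 0 → c ≠ 0 → QVh K a (b * c) = QVh K a b + QVh K a c := by
    intro a b c ha hb hc
    have := B a b c ha hb hc
    unfold QVh
    by_cases h1 : Splits (a : K) (b : K) <;> by_cases h2 : Splits (a : K) (c : K)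
    · rw [if_pos h1, if_pos h2, if_pos (this.2 ⟨fun _ => h2, fun _ => h1⟩)]; rfl
    · rw [if_pos h1, if_neg h2, if_neg (fun h => h2 ((this.1 h).1 h1))]; rfl
    · rw [if_neg h1, if_pos h2, if_neg (fun h => h1 ((this.1 h).2 h2))]; rfl
    · rw [if_neg h1, if_neg h2, if_pos (this.2 ⟨fun h => absurd h h1, fun h => absurd h h2⟩)]; rfl
  have hsym : ∀ a b : ℤ, QVh K a b = QVh K b a := by
    intro a b
    unfold QVh
    by_cases h1 : Splits (a : K) (b : K)
    · rw [if_pos h1, if_pos (splits_comm.1 h1)]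
    · rw [if_neg h1, if_neg (fun h => h1 (splits_comm.1 h))]
  have hc : e2 - e1 ≠ 0 := sub_ne_zero.2 (Ne.symm he)
  have hc' : e1 - e2 ≠ 0 := sub_ne_zero.2 he
  obtain ⟨x, y, hy, hxy, ⟨s, hs⟩, ⟨t, ht⟩⟩ := h
  have hmK : (m : K) ≠ 0 := by exact_mod_cast hm
  have hnK : (n : K) ≠ 0 := by exact_mod_cast hn
  have hcK : (e2 : K) - e1 ≠ 0 := by exact_mod_cast hc
  have key : QVh K (m * (e2 - e1)) (n * (e1 - e2)) = 0 := by
    unfold QVh
    rw [if_pos]
    refine ⟨s / m, t / n, (e2 : K) - e1, Or.inr (Or.inr hcK), ?_⟩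
    push_cast
    have h1 : (m : K) * (s / m) ^ 2 = x - e1 := by
      field_simp
      linear_combination -hs
    have h2 : (n : K) * (t / n) ^ 2 = x - e2 := by
      field_simp
      linear_combination -ht
    linear_combination -((e2 : K) - e1) * h1 + ((e2 : K) - e1) * h2
  have h0 : QVh K (e2 - e1) (e1 - e2) = 0 := by
    unfold QVh
    rw [if_pos]
    refine ⟨1, 1, 0, Or.inl one_ne_zero, ?_⟩
    push_cast
    ring
  rw [hbil _ _ _ (mul_ne_zero hm hc) hn hc', hsym (m * (e2 - e1)) n, hsym (m * (e2 - e1)) (e1 - e2),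
    hbil _ _ _ hn hm hc, hbil _ _ _ hc' hm hc, hsym (e1 - e2) (e2 - e1), h0, hsym n m,
    hsym (e1 - e2) m, add_zero] at key
  rw [← key]; ring

lemma QV_real (a b : ℤ) (ha : a ≠ 0) (hb : b ≠ 0) : Splits (a : ℝ) (b : ℝ) ↔ (0 < a ∨ 0 < b) := by
  constructor
  · rintro ⟨x, y, z, h0, h1⟩
    by_contra hcon
    push Not at hcon
    have ha' : (a : ℝ) < 0 := by exact_mod_cast lt_of_le_of_ne hcon.1 ha
    have hb' : (b : ℝ) < 0 := by exact_mod_cast lt_of_le_of_ne hcon.2 hb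
    have hx : x = 0 := by
      by_contra hx
      have : 0 < x ^ 2 := by positivity
      nlinarith [mul_pos (neg_pos.2 ha') this, sq_nonneg y, sq_nonneg z, mul_nonneg (neg_pos.2 hb').le (sq_nonneg y)]
    have hy : y = 0 := by
      by_contra hy
      have : 0 < y ^ 2 := by positivity
      nlinarith [mul_pos (neg_pos.2 hb') this, sq_nonneg x, sq_nonneg z, mul_nonneg (neg_pos.2 ha').le (sq_nonneg x)]
    have hz : z = 0 := by
      rw [hx, hy] at h1
      have : z ^ 2 = 0 := by rw [h1]; ring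
      exact pow_eq_zero_iff (two_ne_zero) |>.1 this
    rcases h0 with h | h | h
    · exact h hx
    · exact h hy
    · exact h hz
  · rintro (h | h)
    · have h' : (0 : ℝ) ≤ (a : ℝ) := by exact_mod_cast h.le
      exact ⟨1, 0, √a, Or.inl one_ne_zero, by rw [Real.sq_sqrt h']; ring⟩
    · have h' : (0 : ℝ) ≤ (b : ℝ) := by exact_mod_cast h.le
      exact ⟨0, 1, √b, Or.inr (Or.inl one_ne_zero), by rw [Real.sq_sqrt h']; ring⟩

lemma QV_real_bil (a b c : ℤ) (ha : a ≠ 0) (hb : b ≠ 0) (hc : c ≠ 0) :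
    Splits (a : ℝ) ((b * c : ℤ) : ℝ) ↔ (Splits (a : ℝ) (b : ℝ) ↔ Splits (a : ℝ) (c : ℝ)) := by
  rw [QV_real a (b * c) ha (mul_ne_zero hb hc), QV_real a b ha hb, QV_real a c ha hc]
  rcases lt_or_gt_of_ne hb with h1 | h1 <;> rcases lt_or_gt_of_ne hc with h2 | h2
  · have : 0 < b * c := mul_pos_of_neg_of_neg h1 h2
    have h1' := not_lt.2 h1.le
    have h2' := not_lt.2 h2.le
    tauto
  · have : ¬ 0 < b * c := not_lt.2 (mul_nonpos_of_nonpos_of_nonneg h1.le h2.le)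
    have h1' := not_lt.2 h1.le
    tauto
  · have : ¬ 0 < b * c := not_lt.2 (mul_nonpos_of_nonneg_of_nonpos h1.le h2.le)
    have h2' := not_lt.2 h2.le
    tauto
  · have : 0 < b * c := mul_pos h1 h2
    tauto

theorem t_QV : S_QV := by
  intro e1 e2 e3 m n he hm hn
  refine ⟨fun h => ?_, fun p hp h => ?_⟩
  · exact QV_gen ℝ QV_real_bil e1 e2 e3 m n he hm hn h
  · by_cases h2 : p = 2
    · subst h2
      have hf : hp = ⟨Nat.prime_two⟩ := rfl
      exact QV_gen ℚ_[2] (fun a b c ha hb hc => Pool.Agent.W864.HBm.bilt_ a b c ha hb hc) e1 e2 e3 m n he hm hn h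
    · exact QV_gen ℚ_[p] (fun a b c ha hb hc => Pool.Agent.W215.HB.bilo_ p h2 a b c ha hb hc) e1 e2 e3 m n he hm hn h

end Pool.Agent.N954.GK
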